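import Pool.Agent.SSF.StmtsC

/-!
# Squad SSF, row HSG (helper21, double)
-/

set_option autoImplicit false

open Set Topology

namespace Pool.Agent.SSF.H21

open Pool.Agent.LSG Pool.Agent.LPR Pool.Agent.SSF

open Classical in
/-- extension by zero -/
noncomputable def ext0 {X : Type} (B : Set X) (F : ↥B × OnePoint ℕ → ℝ) (x : X)
    (n : OnePoint ℕ) : ℝ :=
  if h : x ∈ B then F (⟨x, h⟩, n) else 0

theorem ext0_pos {X : Type} (B : Set X) (F : ↥B × OnePoint ℕ → ℝ) (x : X) (n : OnePoint ℕ)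
    (h : x ∈ B) : ext0 B F x n = F (⟨x, h⟩, n) := dif_pos h

theorem ext0_neg {X : Type} (B : Set X) (F : ↥B × OnePoint ℕ → ℝ) (x : X) (n : OnePoint ℕ)
    (h : x ∉ B) : ext0 B F x n = 0 := dif_neg h

theorem ext0_add {X : Type} (B : Set X) (F G : ↥B × OnePoint ℕ → ℝ) (x : X) (n : OnePoint ℕ) :
    ext0 B (F + G) x n = ext0 B F x n + ext0 B G x n := by
  by_cases h : x ∈ B
  · rw [ext0_pos B _ x n h, ext0_pos B _ x n h, ext0_pos B _ x n h]
    rfl
  · rw [ext0_neg B _ x n h, ext0_neg B _ x n h, ext0_neg B _ x n h, add_zero]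

theorem ext0_smul {X : Type} (B : Set X) (c : ℝ) (F : ↥B × OnePoint ℕ → ℝ) (x : X)
    (n : OnePoint ℕ) : ext0 B (c • F) x n = c * ext0 B F x n := by
  by_cases h : x ∈ B
  · rw [ext0_pos B _ x n h, ext0_pos B _ x n h]
    rfl
  · rw [ext0_neg B _ x n h, ext0_neg B _ x n h, mul_zero]

theorem glue {Z X : Type} [TopologicalSpace Z] [TopologicalSpace X] {B : Set X}
    (hB : IsClosed B) {u : Z → X} (hu : Continuous u) {v : Z → OnePoint ℕ} (hv : Continuous v)
    {F : ↥B × OnePoint ℕ → ℝ} (hF : Continuous F) {Q : Set Z} (hQ : IsClosed Q)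
    (hc : ∀ z, u z ∈ B ∨ z ∈ Q) (h0 : ∀ z ∈ Q, ∀ h : u z ∈ B, F (⟨u z, h⟩, v z) = 0) :
    Continuous (fun z => ext0 B F (u z) (v z)) := by
  have hun : u ⁻¹' B ∪ Q = univ := by
    ext z
    exact ⟨fun _ => trivial, fun _ => hc z⟩
  rw [← continuousOn_univ, ← hun]
  refine ContinuousOn.union_of_isClosed ?_ ?_ (hB.preimage hu) hQ
  · rw [continuousOn_iff_continuous_domRestrict]
    have : (u ⁻¹' B).domRestrict (fun z => ext0 B F (u z) (v z)) =
        fun z => F (⟨u z.1, z.2⟩, v z.1) := by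
      funext z
      exact ext0_pos B F _ _ z.2
    rw [this]
    refine hF.comp (Continuous.prodMk ?_ (hv.comp continuous_subtype_val))
    exact Continuous.subtype_mk (hu.comp continuous_subtype_val) _
  · have h1 : ∀ z ∈ Q, ext0 B F (u z) (v z) = (fun _ => (0 : ℝ)) z := by
      intro z hz
      by_cases h : u z ∈ B
      · rw [ext0_pos B F _ _ h]
        exact h0 z hz h
      · exact ext0_neg B F _ _ h
    exact continuousOn_const.congr h1

/-- evaluation of the extension is continuous -/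
theorem ext0_eval {X : Type} [TopologicalSpace X] (B : Set X) (O : Set ↥B) (x : X)
    (n : OnePoint ℕ) : Continuous (fun F : ↥(Sg O) => ext0 B F.1 x n) := by
  by_cases h : x ∈ B
  · have : (fun F : ↥(Sg O) => ext0 B F.1 x n) = fun F : ↥(Sg O) => F.1 (⟨x, h⟩, n) := by
      funext F
      exact ext0_pos B F.1 x n h
    rw [this]
    exact (continuous_apply _).comp continuous_subtype_val
  · have : (fun F : ↥(Sg O) => ext0 B F.1 x n) = fun _ => 0 := by
      funext F
      exact ext0_neg B F.1 x n h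
    rw [this]
    exact continuous_const

theorem hsg (hDug : DugStmt) : HsgStmt := by
  intro X _ _ A B hA hB hAB O hO
  have hcov : ∀ x, x ∈ A ∨ x ∈ B := fun x => by
    have : x ∈ A ∪ B := by rw [hAB]; trivial
    exact this
  let C : Set (X × OnePoint ℕ) := {y | y.1 ∈ A ∨ (y.1 ∉ O ∨ y.2 = OnePoint.infty)}
  have hQ : IsClosed {y : X × OnePoint ℕ | y.1 ∉ O ∨ y.2 = OnePoint.infty} :=
    (hO.isClosed_compl.preimage continuous_fst).union
      ((isClosed_singleton (x := (OnePoint.infty : OnePoint ℕ))).preimage continuous_snd)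
  have hC : IsClosed C := (hA.preimage continuous_fst).union hQ
  obtain ⟨φ, hφ⟩ := hDug (X × OnePoint ℕ) C hC
  have c1 : Continuous (fun y : ↥C => y.1.1) := continuous_fst.comp continuous_subtype_val
  have c2 : Continuous (fun y : ↥C => y.1.2) := continuous_snd.comp continuous_subtype_val
  have hA0 : ∀ (F : ↥(Sg (Subtype.val ⁻¹' O : Set ↥A))) (x : X) (n : OnePoint ℕ) (h : x ∈ A),
      (x ∉ O ∨ n = OnePoint.infty) → F.1 (⟨x, h⟩, n) = 0 := by
    intro F x n h h1
    rcases h1 with h1 | h1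
    · exact F.2.2.1 ⟨x, h⟩ h1 n
    · rw [h1]
      exact F.2.2.2 _
  let exL : ↥(Sg (Subtype.val ⁻¹' O : Set ↥A)) →L[ℝ] ↥(Cp ↥C) :=
    { toFun := fun F => ⟨fun y => ext0 A F.1 y.1.1 y.1.2, glue hA c1 c2 F.2.1
        (hQ.preimage continuous_subtype_val) (fun z => z.2)
        (fun z hz h => hA0 F _ _ h hz)⟩
      map_add' := fun F G => Subtype.ext (funext fun y => ext0_add A F.1 G.1 _ _)
      map_smul' := fun c F => Subtype.ext (funext fun y => ext0_smul A c F.1 _ _)
      cont := Continuous.subtype_mk (continuous_pi fun y => ext0_eval A _ _ _) _ }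
  let E : ↥(Sg (Subtype.val ⁻¹' O : Set ↥A)) →L[ℝ] ↥(Cp (X × OnePoint ℕ)) := φ.comp exL
  have hE : ∀ (F : ↥(Sg (Subtype.val ⁻¹' O : Set ↥A))) (x : X) (n : OnePoint ℕ),
      (x, n) ∈ C → (E F).1 (x, n) = ext0 A F.1 x n := fun F x n h => hφ (exL F) ⟨(x, n), h⟩
  have hEA : ∀ (F : ↥(Sg (Subtype.val ⁻¹' O : Set ↥A))) (x : X) (n : OnePoint ℕ) (h : x ∈ A),
      (E F).1 (x, n) = F.1 (⟨x, h⟩, n) := fun F x n h =>
    (hE F x n (Or.inl h)).trans (ext0_pos A F.1 x n h)
  have hE0 : ∀ (F : ↥(Sg (Subtype.val ⁻¹' O : Set ↥A))) (x : X) (n : OnePoint ℕ),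
      (x ∉ O ∨ n = OnePoint.infty) → (E F).1 (x, n) = 0 := by
    intro F x n h
    rw [hE F x n (Or.inr h)]
    by_cases hx : x ∈ A
    · rw [ext0_pos A F.1 x n hx]
      exact hA0 F x n hx h
    · exact ext0_neg A F.1 x n hx
  let rA : ↥(Sg O) →L[ℝ] ↥(Sg (Subtype.val ⁻¹' O : Set ↥A)) :=
    { toFun := fun F => ⟨fun y => F.1 (y.1.1, y.2),
        F.2.1.comp (Continuous.prodMk (continuous_subtype_val.comp continuous_fst) continuous_snd),
        fun x hx n => F.2.2.1 x.1 hx n, fun x => F.2.2.2 x.1⟩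
      map_add' := fun f g => rfl
      map_smul' := fun c f => rfl
      cont := by
        refine Continuous.subtype_mk
          (f := fun f : ↥(Sg O) => fun y : ↥A × OnePoint ℕ => f.1 (y.1.1, y.2))
          (continuous_pi fun y => ?_) _
        exact (continuous_apply (y.1.1, y.2)).comp continuous_subtype_val }
  let iB : ↥(Sg O) →L[ℝ] ↥(Sg (Subtype.val ⁻¹' (O \ A) : Set ↥B)) :=
    { toFun := fun F => ⟨fun y => F.1 (y.1.1, y.2) - (E (rA F)).1 (y.1.1, y.2),
        (F.2.1.sub (E (rA F)).2).comp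
          (Continuous.prodMk (continuous_subtype_val.comp continuous_fst) continuous_snd), by
          intro x hx n
          show F.1 (x.1, n) - (E (rA F)).1 (x.1, n) = 0
          by_cases h : x.1 ∈ A
          · rw [hEA (rA F) x.1 n h]
            exact sub_self _
          · have h1 : x.1 ∉ O := fun h2 => hx ⟨h2, h⟩
            rw [hE0 (rA F) x.1 n (Or.inl h1), F.2.2.1 x.1 h1 n, sub_zero], by
          intro x
          show F.1 (x.1, OnePoint.infty) - (E (rA F)).1 (x.1, OnePoint.infty) = 0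
          rw [hE0 (rA F) x.1 _ (Or.inr rfl), F.2.2.2 x.1, sub_zero]⟩
      map_add' := fun F G => Subtype.ext (funext fun y => by
        show F.1 (y.1.1, y.2) + G.1 (y.1.1, y.2) - (E (rA (F + G))).1 (y.1.1, y.2) =
          (F.1 (y.1.1, y.2) - (E (rA F)).1 (y.1.1, y.2)) +
            (G.1 (y.1.1, y.2) - (E (rA G)).1 (y.1.1, y.2))
        rw [map_add, map_add]
        show F.1 (y.1.1, y.2) + G.1 (y.1.1, y.2) -
          ((E (rA F)).1 (y.1.1, y.2) + (E (rA G)).1 (y.1.1, y.2)) = _
        ring)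
      map_smul' := fun c F => Subtype.ext (funext fun y => by
        show c * F.1 (y.1.1, y.2) - (E (rA (c • F))).1 (y.1.1, y.2) =
          c * (F.1 (y.1.1, y.2) - (E (rA F)).1 (y.1.1, y.2))
        rw [map_smul, map_smul]
        show c * F.1 (y.1.1, y.2) - c * (E (rA F)).1 (y.1.1, y.2) = _
        ring)
      cont := by
        refine Continuous.subtype_mk
          (f := fun F : ↥(Sg O) => fun y : ↥B × OnePoint ℕ =>
            F.1 (y.1.1, y.2) - (E (rA F)).1 (y.1.1, y.2))
          (continuous_pi fun y => ?_) _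
        exact ((continuous_apply (y.1.1, y.2)).comp continuous_subtype_val).sub
          ((continuous_apply (y.1.1, y.2)).comp (continuous_subtype_val.comp
            (E.continuous.comp rA.continuous))) }
  have hB0 : ∀ (G : ↥(Sg (Subtype.val ⁻¹' (O \ A) : Set ↥B))) (x : X) (n : OnePoint ℕ),
      (x ∉ O \ A ∨ n = OnePoint.infty) → ext0 B G.1 x n = 0 := by
    intro G x n h
    by_cases hx : x ∈ B
    · rw [ext0_pos B G.1 x n hx]
      rcases h with h | h
      · exact G.2.2.1 ⟨x, hx⟩ h n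
      · rw [h]
        exact G.2.2.2 _
    · exact ext0_neg B G.1 x n hx
  have hBc : ∀ G : ↥(Sg (Subtype.val ⁻¹' (O \ A) : Set ↥B)),
      Continuous (fun y : X × OnePoint ℕ => ext0 B G.1 y.1 y.2) := by
    intro G
    refine glue hB continuous_fst continuous_snd G.2.1 (hA.preimage continuous_fst)
      (fun z => (hcov z.1).symm) (fun z hz h => ?_)
    exact G.2.2.1 ⟨z.1, h⟩ (fun h1 => h1.2 hz) z.2
  let p : ↥(Sg (Subtype.val ⁻¹' O : Set ↥A)) × ↥(Sg (Subtype.val ⁻¹' (O \ A) : Set ↥B)) →L[ℝ]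
      ↥(Sg O) :=
    { toFun := fun F => ⟨fun y => (E F.1).1 y + ext0 B F.2.1 y.1 y.2,
        (E F.1).2.add (hBc F.2), by
          intro x hx n
          show (E F.1).1 (x, n) + ext0 B F.2.1 x n = 0
          rw [hE0 F.1 x n (Or.inl hx), hB0 F.2 x n (Or.inl fun h => hx h.1), add_zero], by
          intro x
          show (E F.1).1 (x, OnePoint.infty) + ext0 B F.2.1 x OnePoint.infty = 0
          rw [hE0 F.1 x _ (Or.inr rfl), hB0 F.2 x _ (Or.inr rfl), add_zero]⟩
      map_add' := fun F G => Subtype.ext (funext fun y => by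
        show (E (F.1 + G.1)).1 y + ext0 B (F.2.1 + G.2.1) y.1 y.2 =
          ((E F.1).1 y + ext0 B F.2.1 y.1 y.2) + ((E G.1).1 y + ext0 B G.2.1 y.1 y.2)
        rw [map_add, ext0_add]
        show (E F.1).1 y + (E G.1).1 y + _ = _
        ring)
      map_smul' := fun c F => Subtype.ext (funext fun y => by
        show (E (c • F.1)).1 y + ext0 B (c • F.2.1) y.1 y.2 =
          c * ((E F.1).1 y + ext0 B F.2.1 y.1 y.2)
        rw [map_smul, ext0_smul]
        show c * (E F.1).1 y + _ = _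
        ring)
      cont := by
        refine Continuous.subtype_mk
          (f := fun F : ↥(Sg (Subtype.val ⁻¹' O : Set ↥A)) ×
              ↥(Sg (Subtype.val ⁻¹' (O \ A) : Set ↥B)) => fun y : X × OnePoint ℕ =>
            (E F.1).1 y + ext0 B F.2.1 y.1 y.2)
          (continuous_pi fun y => ?_) _
        exact ((continuous_apply y).comp (continuous_subtype_val.comp
          (E.continuous.comp continuous_fst))).add
            ((ext0_eval B _ y.1 y.2).comp continuous_snd) }
  refine ⟨rA.prod iB, p, fun F => Subtype.ext (funext fun y => ?_)⟩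
  show (E (rA F)).1 y + ext0 B (iB F).1 y.1 y.2 = F.1 y
  obtain ⟨x, n⟩ := y
  by_cases hx : x ∈ B
  · rw [ext0_pos B _ x n hx]
    show (E (rA F)).1 (x, n) + (F.1 (x, n) - (E (rA F)).1 (x, n)) = F.1 (x, n)
    ring
  · have hxA : x ∈ A := (hcov x).resolve_right hx
    rw [ext0_neg B _ x n hx, add_zero]
    exact hEA (rA F) x n hxA

end Pool.Agent.SSF.H21
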