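import Pool.Agent.SSF.Stmts

/-!
# Squad SSF, row HAM (helper21, double)
-/

set_option autoImplicit false

open Set Topology

namespace Pool.Agent.SSF.H21

open Pool.Agent.LSG Pool.Agent.LPR Pool.Agent.SSF

theorem trap (a b c d : ℝ) (hab : a < b) (hcd : c < d) : ∃ f : C(ℝ, ℝ),
    (∀ r, 0 ≤ f r ∧ f r ≤ 1) ∧ (∀ r, b ≤ r → r ≤ c → f r = 1) ∧
      ∀ r, f r ≠ 0 → a < r ∧ r < d := by
  have h1 : 0 < b - a := by linarith
  have h2 : 0 < d - c := by linarith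
  refine ⟨⟨fun r => max 0 (min 1 (min ((r - a) / (b - a)) ((d - r) / (d - c)))), by fun_prop⟩,
    fun r => ⟨le_max_left _ _, max_le zero_le_one (min_le_left _ _)⟩, fun r hb hc => ?_,
    fun r h => ?_⟩
  · have e1 : 1 ≤ (r - a) / (b - a) := by
      rw [le_div_iff₀ h1]
      linarith
    have e2 : 1 ≤ (d - r) / (d - c) := by
      rw [le_div_iff₀ h2]
      linarith
    show max 0 (min 1 (min ((r - a) / (b - a)) ((d - r) / (d - c)))) = 1
    rw [min_eq_left (le_min e1 e2)]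
    exact max_eq_right zero_le_one
  · by_contra hc
    refine h ?_
    show max 0 (min 1 (min ((r - a) / (b - a)) ((d - r) / (d - c)))) = 0
    refine max_eq_left ((min_le_right _ _).trans ?_)
    rcases not_and_or.1 hc with h3 | h3
    · exact (min_le_left _ _).trans (div_nonpos_of_nonpos_of_nonneg (by linarith [not_lt.1 h3]) h1.le)
    · exact (min_le_right _ _).trans (div_nonpos_of_nonpos_of_nonneg (by linarith [not_lt.1 h3]) h2.le)

theorem ham (hat : LPR.HatStmt) : HamStmt := by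
  obtain ⟨h₀, g1, g2, g3⟩ := hat
  have e1 : ∀ m : ℕ, (1 / 2 : ℝ) ^ (m + 2) < (1 / 2 : ℝ) ^ (m + 1) := fun m =>
    pow_lt_pow_right_of_lt_one₀ (by norm_num) (by norm_num) (by omega)
  have e2 : ∀ m : ℕ, (1 / 2 : ℝ) ^ (m + 4) < (1 / 2 : ℝ) ^ (m + 3) := fun m =>
    pow_lt_pow_right_of_lt_one₀ (by norm_num) (by norm_num) (by omega)
  have e3 : ∀ m : ℕ, (0 : ℝ) < (1 / 2 : ℝ) ^ m := fun m => by positivity
  choose h' a1 a2 a3 using fun m : ℕ => trap ((1 / 2 : ℝ) ^ (m + 2)) ((1 / 2 : ℝ) ^ (m + 1))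
    (2 * (1 / 2 : ℝ) ^ m) (4 * (1 / 2 : ℝ) ^ m) (e1 m) (by linarith [e3 m])
  choose θ b1 b2 b3 using fun m : ℕ => trap ((1 / 2 : ℝ) ^ (m + 4)) ((1 / 2 : ℝ) ^ (m + 3))
    (8 * (1 / 2 : ℝ) ^ m) (16 * (1 / 2 : ℝ) ^ m) (e2 m) (by linarith [e3 m])
  refine ⟨fun m => h₀ m ^ 2, h', θ, fun m r => ?_, a1, b1, fun m r h => ?_, a3, b2, b3,
    fun r hr hr1 => ?_⟩
  · show 0 ≤ (h₀ m r) ^ 2
    positivity
  · have h4 : h₀ m r ≠ 0 := by
      intro h5
      apply h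
      show (h₀ m r) ^ 2 = 0
      rw [h5]
      norm_num
    obtain ⟨h5, h6⟩ := g2 m r h4
    exact a2 m r h5.le h6.le
  · obtain ⟨j, h5, h6⟩ := g3 r hr hr1
    refine ⟨j, fun m h => h5 m ?_, h6⟩
    intro h7
    apply h
    show (h₀ m r) ^ 2 = 0
    rw [h7]
    norm_num

end Pool.Agent.SSF.H21
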